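import Mathlib
import Pool.Agent.Q271.CI.All

/-!
# Curve degrees on general complete intersections: one example decides

For degrees `d = (d_1, ..., d_r)` let `X_d` be the very general complete intersection of type `d` in `P^N` over `ℂ`. The question
is whether `d_1 ⋯ d_r` divides the degree of every curve on `X_d` if `N - r = n` is fixed and all `d_i` are large. Write
`m | M_N(d)` if `m` divides the degrees of all curves on `X_d`. All parts of the theorem are unconditional.

1. **One example suffices.** `m | M_N(d)` if and only if there is one system of forms `f_1, ..., f_r` of degrees `d_i` (zero, singular,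
   reducible, non-reduced, of excessive dimension, everything is allowed) such that all curves in `f_1 = ... = f_r = 0` have
   degrees divisible by `m`.
2. `m | M_N(d)` and `m | M_N(d')` imply `m | M_N(d + d')` if the sum is taken in one coordinate and the other coordinates are
   equal. So for every modulus the good degrees are a semigroup in each coordinate (for `r = 1` this is known). Moreover
   `M_(N+1)(d) | M_N(d)` (hyperplane sections), and `M_(n+s)(d') | M_(n+r)(d)` for every sub-tuple `d'` of `s` of the degrees (same
   dimension `n`).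
3. **All or nothing.** Let `p` be a prime and `a_1, ..., a_r`, `b` exponents. If there is ONE tuple of degrees `d_i` with `v_p(d_i) = a_i`
   and ONE system of forms of these degrees in `P^(n+r)` such that `p^b` divides the degrees of all curves on which they vanish,
   then `p^b` divides the degrees of all curves on the very general complete intersections of ALL types `d'` with `d'_i` divisible
   by `p^(a_i)` and `d'_i ≥ d_i p^(n (b + n))`. For example: either all curves on the very general threefolds in `P^4` of all large even degrees have even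
   degrees, or every hypersurface in `P^4` of any degree congruent to `2` modulo `4` contains a curve of odd degree. In other
   words, `min(b, v_p(M_(n+r)(d)))` depends only on `v_p(d_1), ..., v_p(d_r)` if all `d_i` are large. The same holds for all moduli `m`,
   with the `m`-primary parts of the degrees.
4. **Criterion.** Suppose that for every prime `p`, every `s ≤ r` and all exponents `a_1, ..., a_s > 0` there is one such example in
   `P^(n+s)` with `b = a_1 + ... + a_s`. Then for all moduli `q_1, ..., q_r` the product `q_1 ⋯ q_r` divides `M_(n+r)(d)` for all large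
   multiples `d_i` of `q_i`.
5. **One prime at a time.** The question for `(n, r)` (with the bound `D` for the degrees) is equivalent to: for every prime `p`,
   every `s ≤ r` and all `d_1, ..., d_s > D` which are ALL divisible by `p`, the `p`-part of `d_1 ⋯ d_s` divides `M_(n+s)(d)`. In particular
   the case of hypersurfaces (for threefolds the conjecture of Griffiths and Harris) implies the case of all complete
   intersections of the same dimension with pairwise coprime degrees, degree by degree. For `n = 3` the hypothesis holds for a
   set of degrees of positive density (theorem of Paulsen), so the answer is positive for infinitely many types in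
   every codimension.

A curve of degree `e` in `P^N` is given by its homogeneous prime ideal `I`: the Hilbert function of the quotient by `I` is `e k + c` for all large
`k`, with `e > 0`. Very general means: off the zeros of countably many nonzero polynomials in the coefficients of the `f_i`. Part 0 of
the theorem: this is equivalent to the form of the frozen statement, in which the curves are the homogeneous primes with
quotient of Krull dimension 2 and the degree is the eventual value of the difference of the Hilbert function.

Proof. Part 1: let `f^0` be the example, with coefficients in a countable field `K_1`. The coefficients of a very general `f` are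
algebraically independent over a field `K_2 ⊇ K_1` with the cardinality of `ℂ`; there is a valuation ring `B` of `ℂ` which
specialises `f` to `f^0` and whose residue field contains `K_2`, so it is isomorphic to `ℂ` over `K_1`. The ideal of a curve on
`f = 0` specialises to a homogeneous ideal with the same Hilbert function, and its degree is the sum of the degrees of the curves
(with multiplicities) in the limit; this uses the tools on Hilbert functions and specialisation of the starting files
(Pool.Agent.TH922.KC). Part 2: the example `f_1 = g g'` with very general factors, and the examples with `f_r` a power of a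
coordinate. Part 3: replace some of the `d_i` by a high power of `m`; then `m` divides all degrees by Kollár's theorem (for complete
intersections: starting files), and the semigroups generated by `d_i` and this power contain all large multiples of the
greatest common divisor. Parts 4 and 5: subsets of the degrees and the Chinese remainder principle for `M`.
-/

set_option autoImplicit false

open MvPolynomial

namespace Pool.Agent.Results.MP_8dbee4_ag.OneExampleSuffices

/-- the Hilbert function of the quotient by `I` -/
noncomputable def hilb {N : ℕ} (I : Ideal (MvPolynomial (Fin (N + 1)) ℂ)) (k : ℕ) : ℕ :=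
  Module.finrank ℂ (Submodule.map (Ideal.Quotient.mkₐ ℂ I).toLinearMap
    (homogeneousSubmodule (Fin (N + 1)) ℂ k))

/-- `I` is the homogeneous ideal of an irreducible curve of degree `e` in `P^N`: a homogeneous prime ideal with the
Hilbert function `e k + c` for all large `k`, where `e > 0`. -/
structure IsCurve {N : ℕ} (I : Ideal (MvPolynomial (Fin (N + 1)) ℂ)) (e : ℕ) : Prop where
  /-- homogeneous -/
  hom : ∀ p ∈ I, ∀ k : ℕ, homogeneousComponent k p ∈ I
  /-- prime -/
  prime : I.IsPrime
  /-- positive degree -/
  pos : 0 < e
  /-- the Hilbert function -/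
  deg : ∃ K : ℕ, ∀ k : ℕ, K ≤ k → hilb I (k + 1) = hilb I k + e

/-- all curves on which the forms `f_i` vanish have degrees divisible by `m` -/
def Divides {N r : ℕ} (m : ℕ) (f : Fin r → MvPolynomial (Fin (N + 1)) ℂ) : Prop :=
  ∀ I e, IsCurve I e → (∀ i, f i ∈ I) → m ∣ e

/-- the coefficients of `r` forms of degrees `d_i` in `N + 1` variables -/
abbrev Coeffs (N r : ℕ) (d : Fin r → ℕ) : Type :=
  Σ i : Fin r, {μ : Fin (N + 1) →₀ ℕ // μ.degree = d i}

/-- For very general forms of degrees `d_i` (off the zeros of countably many nonzero polynomials `bad j` in the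
coefficients) all curves on which they vanish have degrees divisible by `m`. -/
def General (N : ℕ) {r : ℕ} (d : Fin r → ℕ) (m : ℕ) : Prop :=
  ∃ bad : ℕ → MvPolynomial (Coeffs N r d) ℂ, (∀ j, bad j ≠ 0) ∧
    ∀ f : Fin r → MvPolynomial (Fin (N + 1)) ℂ, (∀ i, (f i).IsHomogeneous (d i)) →
      (∀ j, eval (fun x : Coeffs N r d => coeff x.2.1 (f x.1)) (bad j) ≠ 0) → Divides m f

/-- The same with curves given by homogeneous primes `I` with `dim ℂ[x]/I = 2`, the degree being the eventual value of the
difference of the Hilbert function. -/
def Literal (N : ℕ) {r : ℕ} (d : Fin r → ℕ) (m : ℕ) : Prop :=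
  ∃ bad : ℕ → MvPolynomial (Coeffs N r d) ℂ, (∀ j, bad j ≠ 0) ∧
    ∀ f : Fin r → MvPolynomial (Fin (N + 1)) ℂ, (∀ i, (f i).IsHomogeneous (d i)) →
      (∀ j, eval (fun x : Coeffs N r d => coeff x.2.1 (f x.1)) (bad j) ≠ 0) →
      ∀ I : Ideal (MvPolynomial (Fin (N + 1)) ℂ),
        (∀ p ∈ I, ∀ k : ℕ, homogeneousComponent k p ∈ I) → I.IsPrime →
        ringKrullDim (MvPolynomial (Fin (N + 1)) ℂ ⧸ I) = 2 → (∀ i, f i ∈ I) →
        ∃ K : ℕ, ∀ k : ℕ, K ≤ k → (m : ℤ) ∣ (hilb I (k + 1) : ℤ) - (hilb I k : ℤ)

lemma isCurve_iff {N : ℕ} (I : Ideal (MvPolynomial (Fin (N + 1)) ℂ)) (e : ℕ) :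
    IsCurve I e ↔ Pool.Agent.Q271.CI.IsCurve I e :=
  ⟨fun h => ⟨h.hom, h.prime, h.pos, h.deg⟩, fun h => ⟨h.hom, h.prime, h.pos, h.deg⟩⟩

lemma divides_iff {N r : ℕ} (m : ℕ) (f : Fin r → MvPolynomial (Fin (N + 1)) ℂ) :
    Divides m f ↔ Pool.Agent.Q271.CI.AllDiv m f := by
  unfold Divides Pool.Agent.Q271.CI.AllDiv
  simp only [isCurve_iff]

lemma general_iff {N r : ℕ} (d : Fin r → ℕ) (m : ℕ) :
    General N d m ↔ Pool.Agent.Q271.CI.Div N d m := by
  unfold General Pool.Agent.Q271.CI.Div
  simp only [divides_iff]

/-- **Theorem.** See the header. -/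
theorem result :
    -- (0) equivalence with the literal form
    (∀ (N r : ℕ) (d : Fin r → ℕ) (m : ℕ), General N d m ↔ Literal N d m) ∧
    -- (1) one example suffices
    (∀ (N r : ℕ) (d : Fin r → ℕ) (m : ℕ), General N d m ↔
      ∃ f : Fin r → MvPolynomial (Fin (N + 1)) ℂ, (∀ i, (f i).IsHomogeneous (d i)) ∧
        Divides m f) ∧
    -- (2) sums in one coordinate, hyperplane sections, sub-tuples
    (∀ (N r : ℕ) (d : Fin r → ℕ) (c : Fin r) (a b m : ℕ),
      General N (Function.update d c a) m → General N (Function.update d c b) m →
      General N (Function.update d c (a + b)) m) ∧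
    (∀ (N r : ℕ) (d : Fin r → ℕ) (m : ℕ), General (N + 1) d m → General N d m) ∧
    (∀ (n s r : ℕ) (d : Fin r → ℕ) (ι : Fin s → Fin r) (m : ℕ), StrictMono ι →
      General (n + s) (fun j => d (ι j)) m → General (n + r) d m) ∧
    -- (3) all or nothing
    (∀ (n r p b : ℕ) (a d : Fin r → ℕ), p.Prime → (∀ i, 0 < d i ∧ (d i).factorization p = a i) →
      (∃ f : Fin r → MvPolynomial (Fin (n + r + 1)) ℂ, (∀ i, (f i).IsHomogeneous (d i)) ∧
        Divides (p ^ b) f) →
      ∀ d' : Fin r → ℕ, (∀ i, p ^ a i ∣ d' i ∧ d i * p ^ (n * (b + n)) ≤ d' i) →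
        General (n + r) d' (p ^ b)) ∧
    (∀ (n r m : ℕ) (d : Fin r → ℕ), 0 < m → General (n + r) d m →
      ∀ d' : Fin r → ℕ, (∀ i, Nat.gcd (d i) (m ^ (n * (m + n))) ∣ d' i ∧
        d i * m ^ (n * (m + n)) ≤ d' i ∧ 0 < d' i) → General (n + r) d' m) ∧
    -- (4) criterion for fixed moduli
    (∀ n r : ℕ, (∀ p : ℕ, p.Prime → ∀ s ≤ r, ∀ a : Fin s → ℕ, (∀ i, 0 < a i) →
        ∃ d : Fin s → ℕ, (∀ i, 0 < d i ∧ (d i).factorization p = a i) ∧
          ∃ f : Fin s → MvPolynomial (Fin (n + s + 1)) ℂ, (∀ i, (f i).IsHomogeneous (d i)) ∧
            Divides (p ^ ∑ i, a i) f) →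
      ∀ q : Fin r → ℕ, (∀ i, 0 < q i) →
        ∃ D : ℕ, ∀ d : Fin r → ℕ, (∀ i, q i ∣ d i ∧ D ≤ d i) → General (n + r) d (∏ i, q i)) ∧
    -- (5) one prime at a time; pairwise coprime degrees
    (∀ n r D : ℕ,
      (∀ p : ℕ, p.Prime → ∀ s ≤ r, ∀ d : Fin s → ℕ, (∀ i, p ∣ d i ∧ D < d i) →
        General (n + s) d (p ^ (∏ i, d i).factorization p)) →
      ∀ d : Fin r → ℕ, (∀ i, D < d i) → General (n + r) d (∏ i, d i)) ∧
    (∀ (n r : ℕ) (d : Fin r → ℕ), (∀ i j, i ≠ j → Nat.Coprime (d i) (d j)) →
      (∀ i, General (n + 1) (fun _ : Fin 1 => d i) (d i)) → General (n + r) d (∏ i, d i)) := by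
  simp only [general_iff, divides_iff]
  refine ⟨?_, ?_, ?_, ?_, ?_, ?_, ?_, ?_, ?_, ?_⟩
  · intro N r d m
    exact ⟨fun h => Pool.Agent.Q271.CI.literal h, fun h => Pool.Agent.Q271.CI.div_of_literal h⟩
  · intro N r d m
    exact ⟨fun h => Pool.Agent.Q271.CI.exists_of_div h,
      fun ⟨f, hf, h⟩ => Pool.Agent.Q271.CI.div_of_example d f hf h⟩
  · intro N r d c a b m ha hb
    exact Pool.Agent.Q271.CI.div_add d c a b ha hb
  · intro N r d m h
    exact Pool.Agent.Q271.CI.div_section d h
  · intro n s r d ι m hι h
    exact Pool.Agent.Q271.CI.div_sub d ι hι h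
  · rintro n r p b a d hp hd ⟨f, hf, h⟩ d' hd'
    exact Pool.Agent.Q271.CI.all_or_nothing_prime p b hp a d hd f hf h d' hd'
  · intro n r m d hm h d' hd'
    exact Pool.Agent.Q271.CI.all_or_nothing hm d h d' hd'
  · intro n r h q hq
    exact Pool.Agent.Q271.CI.weak_criterion h q hq
  · intro n r D h d hd
    exact Pool.Agent.Q271.CI.one_prime h d hd
  · intro n r d hc h
    exact Pool.Agent.Q271.CI.coprime_tuples d hc h

end Pool.Agent.Results.MP_8dbee4_ag.OneExampleSuffices
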