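import Mathlib
import Pool.Agent.Q162.CDG.Main

set_option autoImplicit false

namespace Pool.Agent.Results.MP_8dbee4_ag.TypicalDegreeTuples

open Pool.Agent.Q162.CDG

/-- Let `n ≥ 1` and let `X` be a very general complete intersection of degrees `d_1, …, d_r` in
`P^(n+r)` over `ℂ`.

* All tuples of degrees (`AllTuples n`): there is a divisor `N` of `d_1 ⋯ d_r` which divides the
  degree of every irreducible curve on `X`, and with `E = 4 n ^ 3 + 2 n` one has
  `d_1 ⋯ d_r ≤ 4 ^ (E D) N ^ (2 n - 1)` for all `D ≥ max d_i`. If `2 ≤ d_i` and `4 E d_i ≤ r` for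
  all `i`, then `d_1 ⋯ d_r ≤ N ^ (4 n - 2)`.
* Most tuples of degrees (`MostTuples n`): for every `A` there is `R` such that for all `r ≥ R` and
  `D ≥ r` the following holds for all but at most `D ^ r / r ^ A` of the `D ^ r` tuples of degrees
  in `[1, D]`: the degree of every irreducible curve on `X` is divisible by all `(K!) ^ b` with
  `K log r ≤ c r` and `b K ≤ c r`, where `c = 1 / (64 n (A + 1))`. One of these numbers `(K!) ^ b`
  is at least `r ^ (c r / 4)`. -/
theorem result : ∀ n : ℕ, 0 < n → AllTuples n ∧ MostTuples n :=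
  fun n hn => ⟨part_one n hn, part_two n hn⟩

end Pool.Agent.Results.MP_8dbee4_ag.TypicalDegreeTuples
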